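import Pool.Agent.H13DY.Stm

/-! # Assembly -/

set_option autoImplicit false

namespace Pool.Agent.H13DY

open Polynomial Filter Topology

/-- from an automorphism without fixed formal `n`-periodic points to the density -/
theorem key (hNat : S_NAT) (hNd : S_ND) (hPar : S_PAR) {f : ℚ[X]} {n : ℕ} (hf : f.natDegree = 2)
    (hn : 0 < n) {Ω : Type} [Field Ω] [CharZero Ω] [IsAlgClosed Ω] (σ : Ω ≃+* Ω)
    (h : ∀ x : Ω, FP ((par f : ℚ) : Ω) n x → σ x ≠ x) : Holds f n := by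
  intro Φ hΦ
  obtain ⟨h0, hr⟩ := hPar f n Φ hf hn hΦ
  obtain ⟨d, hd, hd'⟩ := hNat Φ h0 Ω σ (fun x hx hσ => by
    refine h _ (hr Ω x hx) ?_
    have hq : ∀ a : ℚ, σ (a : Ω) = (a : Ω) := fun a => map_ratCast σ a
    rw [map_add, map_mul, map_div₀, hq, hq, hσ]
    have : σ (2 : Ω) = 2 := map_ofNat σ 2
    rw [this])
  exact ⟨d, hd, hNd _ d (fun p hp => hp.1.out) hd'⟩

theorem main (hNat : S_NAT) (hNd : S_ND) (hPar : S_PAR) (hLoc : S_LOC) (hBad : S_BAD) (hGood : S_GOOD)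
    (hT1 : S_TWO1) (hT2 : S_TWO2) (hReal : S_REAL) (f : ℚ[X]) (hf : f.natDegree = 2) (n : ℕ)
    (hn : 3 < n) (hE : ¬ Exc (par f) n) : Holds f n := by
  have hn0 : 0 < n := by omega
  by_cases h1 : par f ≤ -5 / 4
  swap
  · have h1' : -5 / 4 < par f := lt_of_not_ge h1
    exact key hNat hNd hPar hf hn0 (starRingAut : ℂ ≃+* ℂ) (fun x hx => hReal _ h1' n hn x hx)
  by_cases h2 : ∀ (p : ℕ) [Fact p.Prime], 1 < ‖((4 * par f : ℚ) : ℚ_[p])‖ →
      IsSquare (((1 - 4 * par f : ℚ)) : ℚ_[p])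
  swap
  · push Not at h2
    obtain ⟨p, hp, hc, hs⟩ := h2
    obtain ⟨L⟩ := hLoc p
    have e1 : ((4 * par f : ℚ) : ℚ_[p]) = 4 * ((par f : ℚ) : ℚ_[p]) := by push_cast; ring
    have e2 : ((1 - 4 * par f : ℚ) : ℚ_[p]) = 1 - 4 * ((par f : ℚ) : ℚ_[p]) := by push_cast; ring
    obtain ⟨σ, hσ⟩ := hBad p L ((par f : ℚ) : ℚ_[p]) (by rw [← e1]; exact hc) (by rw [← e2]; exact hs)
    refine key hNat hNd hPar hf hn0 σ.toRingEquiv (fun x hx => ?_)
    refine hσ n hn0 x ?_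
    have e3 : algebraMap ℚ_[p] (AlgebraicClosure ℚ_[p]) ((par f : ℚ) : ℚ_[p]) = ((par f : ℚ) : AlgebraicClosure ℚ_[p]) :=
      map_ratCast _ _
    rw [e3]
    obtain ⟨m, hm, hmp, hh⟩ := hx
    have h3 : Function.IsPeriodicPt (qm ((par f : ℚ) : AlgebraicClosure ℚ_[p])) m x := by
      rw [← hmp]; exact Function.isPeriodicPt_minimalPeriod _ _
    have h4 : m ∣ n := by
      rcases hh with rfl | ⟨k, _, rfl, _⟩
      · exact dvd_rfl
      · exact dvd_mul_right _ _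
    exact h3.trans_dvd h4
  by_cases h3 : ∀ p : ℕ, p.Prime → ¬ p ∣ (par f).den → Adm p (red p (par f)) n
  swap
  · push Not at h3
    obtain ⟨p, hp, hd, ha⟩ := h3
    haveI : Fact p.Prime := ⟨hp⟩
    obtain ⟨L⟩ := hLoc p
    exact key hNat hNd hPar hf hn0 L.fr.toRingEquiv
      (fun x hx hσ => ha (hGood p L (par f) hd n hn0 x hx hσ))
  by_cases h4 : padicValRat 2 (par f) = -1
  · obtain ⟨L⟩ := hLoc 2
    exact key hNat hNd hPar hf hn0 L.fr.toRingEquiv (fun x hx => hT1 L (par f) h4 n (by omega) x hx)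
  by_cases h5 : padicValRat 2 (par f) = -2 ∧ ¬ ∃ e : ℕ, n = 2 ^ e
  · obtain ⟨L⟩ := hLoc 2
    exact key hNat hNd hPar hf hn0 L.fr.toRingEquiv
      (fun x hx => hT2 L (par f) h5.1 n (by omega) h5.2 x hx)
  exact absurd ⟨h1, h2, h3, h4, fun h => by_contra fun h' => h5 ⟨h, h'⟩⟩ hE

/-- **Corollaries.** -/
theorem cors (hA35 : S_A35) (hA5 : S_A5) (hAPQ : S_APQ) (hSQ : S_SQ) {c : ℚ} {n : ℕ} (hn : 3 < n)
    (hE : Exc c n) :
    c ≤ -5 / 4 ∧ (∃ k : ℕ, c.den = (2 * k) ^ 2) ∧ (36 ∣ c.den ∨ 100 ∣ c.den) ∧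
    (7 ≤ n → 3 ≤ (({3, 5, 7, 11, 13} : Finset ℕ).filter (fun p => p ∣ c.den)).card) ∧
    (∀ p q : ℕ, p.Prime → q.Prime → p < q → ¬ p ∣ c.den → ¬ q ∣ c.den → n ≤ q * (q - 1)) := by
  obtain ⟨k, hk⟩ := hSQ c n hn hE
  have hdv : ∀ p : ℕ, p.Prime → p ≠ 2 → p ∣ c.den → (2 * p) ^ 2 ∣ c.den := by
    intro p hp hp2 h
    rw [hk] at h ⊢
    have h1 : p ∣ 2 * k := hp.dvd_of_dvd_pow h
    have h2 : p ∣ k := by
      rcases (Nat.Prime.dvd_mul hp).1 h1 with h2 | h2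
      · exact absurd ((Nat.prime_dvd_prime_iff_eq hp Nat.prime_two).1 h2) hp2
      · exact h2
    exact pow_dvd_pow_of_dvd (mul_dvd_mul_left 2 h2) 2
  refine ⟨hE.real, ⟨k, hk⟩, ?_, ?_, ?_⟩
  · by_contra h
    push Not at h
    have h3 : ¬ 3 ∣ c.den := fun h3 => h.1 (by simpa using hdv 3 Nat.prime_three (by norm_num) h3)
    have h5 : ¬ 5 ∣ c.den := fun h5 => h.2 (by simpa using hdv 5 Nat.prime_five (by norm_num) h5)
    exact hA35 _ _ n hn (hE.good 3 Nat.prime_three h3) (hE.good 5 Nat.prime_five h5)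
  · intro h7
    by_contra h
    set S : Finset ℕ := {3, 5, 7, 11, 13} with hS
    have h1 : (S.filter (fun p => p ∣ c.den)).card + (S.filter (fun p => ¬ p ∣ c.den)).card = S.card :=
      Finset.card_filter_add_card_filter_not _
    have h2 : S.card = 5 := by decide
    refine hA5 n h7 (S.filter (fun p => ¬ p ∣ c.den)) (Finset.filter_subset _ _) (by omega) ?_
    intro p hp
    rw [Finset.mem_filter] at hp
    have hpr : p.Prime := by
      have := hp.1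
      simp only [hS, Finset.mem_insert, Finset.mem_singleton] at this
      rcases this with rfl | rfl | rfl | rfl | rfl <;> norm_num
    exact ⟨_, hE.good p hpr hp.2⟩
  · intro p q hp hq hpq h1 h2
    exact hAPQ p q hp hq hpq _ _ n (hE.good p hp h1) (hE.good q hq h2)

end Pool.Agent.H13DY
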