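import Mathlib

/-!
# Primes with p-adic periodic points of a quadratic polynomial: definitions and the lemma jobs

`f ∈ ℚ[x]` of degree 2, conjugate to `x² + c`, `Φ` its `n`-th dynatomic polynomial.  If the Dirichlet density
of the primes `p` for which `Φ` has a root in `ℚ_p` is `1`, then every element of the Galois group has a fixed
point among the roots of `Φ`.  We apply this to complex conjugation, to the Frobenius elements at the primes of
(potentially) good reduction and to the elements of the decomposition groups at the other primes which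
interchange the two fixed points of `f`.
-/

set_option autoImplicit false

namespace Pool.Agent.H13DY

open Polynomial Filter Topology

/-! ### Definitions -/

/-- the set `S` of natural numbers (primes) has Dirichlet density `d` -/
def HasDirDens (S : Set ℕ) (d : ℝ) : Prop :=
  Tendsto (fun s : ℝ => (∑' p : ℕ, S.indicator (fun p : ℕ => (p : ℝ) ^ (-s)) p) / (-Real.log (s - 1)))
    (𝓝[>] 1) (𝓝 d)

/-- the set of primes `p` for which `F` has a root in `ℚ_p` -/
def RootPrimes (F : ℚ[X]) : Set ℕ := {p | ∃ _ : Fact p.Prime, ∃ x : ℚ_[p], aeval x F = 0}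

/-- `Φ` is the `n`-th dynatomic polynomial of `f`: the product of `(f^d(x) - x) ^ μ(n/d)` over `d ∣ n` -/
def IsDyn (f : ℚ[X]) (n : ℕ) (Φ : ℚ[X]) : Prop :=
  algebraMap ℚ[X] (RatFunc ℚ) Φ = ∏ d ∈ n.divisors,
    (algebraMap ℚ[X] (RatFunc ℚ) ((f.comp)^[d] X - X)) ^ (ArithmeticFunction.moebius (n / d))

/-- the parameter `c` such that the quadratic polynomial `f` is linearly conjugate to `x² + c` -/
def par (f : ℚ[X]) : ℚ := f.coeff 2 * f.coeff 0 + f.coeff 1 / 2 - f.coeff 1 ^ 2 / 4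

/-- the map `x ↦ x² + c` -/
def qm {R : Type*} [CommRing R] (c : R) : R → R := fun x => x ^ 2 + c

/-- the derivative of the `m`-th iterate of `x ↦ x² + c` at `x` -/
def mult {R : Type*} [CommRing R] (c : R) (m : ℕ) (x : R) : R :=
  ∏ i ∈ Finset.range m, 2 * (qm c)^[i] x

/-- `x` is a point of formal period `n` of `x ↦ x² + c` -/
def FP {K : Type*} [Field K] (c : K) (n : ℕ) (x : K) : Prop :=
  ∃ m : ℕ, 0 < m ∧ Function.minimalPeriod (qm c) x = m ∧
    (n = m ∨ ∃ k : ℕ, 1 < k ∧ n = m * k ∧ IsPrimitiveRoot (mult c m x) k)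

/-- `n` is admissible for `x ↦ x² + c` over `ℤ/p`: for some cycle, of length `m` and with multiplier `μ`, one has
`n = m` or `n = m r p ^ e`, where `r` is the order of `μ` (`0` if `μ` is not a unit) -/
def Adm (p : ℕ) (c : ZMod p) (n : ℕ) : Prop :=
  ∃ (y : ZMod p) (m : ℕ), 0 < m ∧ Function.minimalPeriod (qm c) y = m ∧
    (n = m ∨ ∃ e : ℕ, n = m * orderOf (mult c m y) * p ^ e)

/-- the reduction of a rational number modulo `p` -/
def red (p : ℕ) (c : ℚ) : ZMod p := (c.num : ZMod p) * (c.den : ZMod p)⁻¹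

/-- the conditions on the exceptional pairs `(c, n)` -/
structure Exc (c : ℚ) (n : ℕ) : Prop where
  /-- at the real place -/
  real : c ≤ -5 / 4
  /-- at the primes of bad reduction -/
  bad : ∀ (p : ℕ) [Fact p.Prime], 1 < ‖((4 * c : ℚ) : ℚ_[p])‖ → IsSquare (((1 - 4 * c : ℚ)) : ℚ_[p])
  /-- at the primes of good reduction -/
  good : ∀ p : ℕ, p.Prime → ¬ p ∣ c.den → Adm p (red p c) n
  /-- at `2` -/
  two1 : padicValRat 2 c ≠ -1
  /-- at `2` -/
  two2 : padicValRat 2 c = -2 → ∃ e : ℕ, n = 2 ^ e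

/-- the assertion of the problem for `f` and `n` -/
def Holds (f : ℚ[X]) (n : ℕ) : Prop :=
  ∀ Φ : ℚ[X], IsDyn f n Φ → ∃ d : ℝ, d < 1 ∧ HasDirDens (RootPrimes Φ) d

/-- the sum of a natural density relative to the primes -/
def HasNatDens (S : Set ℕ) (d : ℝ) : Prop :=
  Tendsto (fun N : ℕ => (({p : ℕ | p ≤ N ∧ p.Prime ∧ p ∈ S}.ncard : ℝ)) / (Nat.primeCounting N : ℝ)) atTop (𝓝 d)

/-- an absolute value on the algebraic closure of `ℚ_p` with a Frobenius element -/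
structure Loc (p : ℕ) [Fact p.Prime] where
  /-- the absolute value -/
  N : AbsoluteValue (AlgebraicClosure ℚ_[p]) ℝ
  na : ∀ x y, N (x + y) ≤ max (N x) (N y)
  ext : ∀ a : ℚ_[p], N (algebraMap ℚ_[p] (AlgebraicClosure ℚ_[p]) a) = ‖a‖
  inv : ∀ (σ : AlgebraicClosure ℚ_[p] ≃ₐ[ℚ_[p]] AlgebraicClosure ℚ_[p]) (x : AlgebraicClosure ℚ_[p]), N (σ x) = N x
  /-- a Frobenius element -/
  fr : AlgebraicClosure ℚ_[p] ≃ₐ[ℚ_[p]] AlgebraicClosure ℚ_[p]
  frob : ∀ x, N x ≤ 1 → N (fr x - x ^ p) < 1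

/-! ### Lemma jobs -/

/-- JOB NAT (Chebotarev).  The primes `p` for which `F` has a root in `ℚ_p` have a natural density, and it is `< 1`
if some automorphism `σ` of an algebraically closed field of characteristic `0` has no fixed point among the roots
of `F`.  PROOF: `L` = splitting field of `F` over `ℚ` (in `Type`), `G = Gal(L/ℚ)`, `T` = the elements of `G` which fix some
root of `F`.  For all but finitely many `p`: `F` has a root in `ℚ_p` iff it has one in `ZMod p` (after clearing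
denominators; leading coefficient and the discriminant of the radical of `F` are units at `p`; Hensel) iff some
(every) `φ : 𝓞 L → F̄_p` has its Frobenius in `T`.  With the library's `Pool.Agent.W401.Cheb.chebotarev` and `torsor`
(`xp L g p` = number of `φ` with Frobenius `g`; `Pool/Agent/W401/Cheb/Main.lean`): indicator of `p ∈ S` is
`(1/#G) ∑ g ∈ T, xp L g p` for almost all `p`, so the natural density is `#T / #G`.  `L` embeds in `Ω`; `σ` restricts to an
element of `G` which is not in `T`, so `#T < #G`. -/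
def S_NAT : Prop := ∀ (F : ℚ[X]), F ≠ 0 → ∀ (Ω : Type) [Field Ω] [CharZero Ω] [IsAlgClosed Ω] (σ : Ω ≃+* Ω),
  (∀ x : Ω, aeval x F = 0 → σ x ≠ x) → ∃ d : ℝ, d < 1 ∧ HasNatDens (RootPrimes F) d

/-- JOB ND.  A set of primes with natural density `d` has Dirichlet density `d` (partial summation, and
`∑ p^{-s} / (-log (s-1)) → 1` as `s → 1+`, e.g. from `riemannZeta` and its Euler product). -/
def S_ND : Prop := ∀ (S : Set ℕ) (d : ℝ), (∀ p ∈ S, Nat.Prime p) → HasNatDens S d → HasDirDens S d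

/-- JOB MUL (multiplicities).  `x` of exact period `m`, multiplier `μ`: the multiplicity of `x` as a root of
`q^d(X) - X` is `0` if `m ∤ d`, `1` if `m ∣ d`, `μ^(d/m) ≠ 1`, and a constant `A` if `μ^(d/m) = 1`.
PROOF: let `g = q^m`, `g(x) = x`.  `g^k(x+Z) - x = μ^k Z + ...`, so the multiplicity is `1` if `μ^k ≠ 1`.  Let `r` be the
order of `μ` (if it is finite), `h = g^r`, `h(x+Z) = x + Z + a Z^A + ...` with `a ≠ 0`, `A ≥ 2` (`h ≠ id` as its degree is
`2^(mr) > 1`); then `h^k(x+Z) = x + Z + k a Z^A + ...` and `k a ≠ 0` in characteristic `0`. -/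
def S_MUL : Prop := ∀ (K : Type) [Field K] [CharZero K] (c x : K) (m : ℕ), 0 < m →
  Function.minimalPeriod (qm c) x = m → ∃ A : ℕ, ∀ d : ℕ, 0 < d →
    ((((X ^ 2 + C c : K[X]).comp)^[d] X - X).rootMultiplicity x : ℕ) =
      (open scoped Classical in if m ∣ d then (if mult c m x ^ (d / m) = 1 then A else 1) else 0)

/-- JOB PAR (S_MUL is a hypothesis).  `Φ` is not `0` and its roots are, after the conjugation `X = a x + b / 2`,
points of formal period `n` of `x² + par f`.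
PROOF: `Φ ≠ 0` because all the factors are `≠ 0`.  Base change to `K` and substitute: the multiplicity of `α` in
`f^d(x) - x` is that of `x = a α + b/2` in `q^d(X) - X` (up to the factor `a`), so
`ord_α Φ = ∑_{d ∣ n} μ(n/d) a_d`, `a_d` as in S_MUL.  First `f^n(α) = α` (else all `a_d = 0`), so `m ∣ n`, `n = m N`, and
`ord_α Φ = ∑_{d' ∣ N} μ(N/d') (1 + (A-1) [μ_x^{d'} = 1]) = [N = 1] + (A-1) [N = order of μ_x]`.  It is `> 0`, so `N = 1` or `N` is the
order of the multiplier. -/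
def S_PAR : Prop := ∀ (f : ℚ[X]) (n : ℕ) (Φ : ℚ[X]), f.natDegree = 2 → 0 < n → IsDyn f n Φ →
  Φ ≠ 0 ∧ ∀ (K : Type) [Field K] [CharZero K] (α : K), aeval α Φ = 0 →
    FP ((par f : ℚ) : K) n ((f.coeff 2 : K) * α + (f.coeff 1 : K) / 2)

/-- JOB LOC.  The spectral norm on the algebraic closure of `ℚ_p` (Mathlib: `spectralNorm`, `spectralAlgNorm`,
`PadicAlgCl`) and a Frobenius element of the absolute Galois group of `ℚ_p` (for example
`Mathlib/RingTheory/Invariant/Profinite.lean`, `Mathlib/RingTheory/Frobenius.lean` (`IsArithFrobAt`), or by hand: compactness, or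
roots of unity of order prime to `p`; see also Pool/Agent/Q14/AR/Cheb.lean, IsFrob). -/
def S_LOC : Prop := ∀ (p : ℕ) [Fact p.Prime], Nonempty (Loc p)

/-- JOB BAD.  PROOF: let `β² - β + c = 0`, `t = 2β`; `t² - 2t + 4c = 0`, so `|t| > 1`.  As `1 - 4c` is not a square in `ℚ_p`, some
`σ` maps `β` to `1 - β`.  Let `x` be periodic, `y = x - β`, `z = y/t`; `f(x) = x₁` gives `z₁ = t z (z+1)`.  `|z| > 1` would give
`|z₁| > |z|` and so on, so `|z| ≤ 1` for all points of the cycle and `|z(z+1)| = |z₁/t| < 1`: `|z| < 1` or `|z+1| < 1`.  If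
`σ x = x` then `σ z = (x-1+β)/(2-t) = -(z+1-1/t)/(1-2/t)`, so `|σ z + z + 1| < 1`.  If `|z| < 1` then `|σ z| < 1`, contradiction; if
`|z+1| < 1` then `|σ z + 1| < 1` and `|σ z| < 1`, contradiction. -/
def S_BAD : Prop := ∀ (p : ℕ) [Fact p.Prime], Loc p → ∀ c : ℚ_[p], 1 < ‖4 * c‖ → ¬ IsSquare (1 - 4 * c) →
  ∃ σ : AlgebraicClosure ℚ_[p] ≃ₐ[ℚ_[p]] AlgebraicClosure ℚ_[p], ∀ n : ℕ, 0 < n → ∀ x : AlgebraicClosure ℚ_[p],
    (qm (algebraMap ℚ_[p] (AlgebraicClosure ℚ_[p]) c))^[n] x = x → σ x ≠ x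

/-- JOB DISC (the theorem of Morton and Silverman).  `N` a nonarchimedean absolute value on a field `K` of
characteristic `0` with `N p < 1`, `g(y) = y² + b y + a` with `|a|, |b| ≤ 1`, `|y| ≤ 1`, `y` of exact period `m'` with
`n = m'` or multiplier a primitive `n/m'`-th root of unity; `m` is the exact period of the reduction of `y`,
`μ` the derivative of `g^m` at `y`.  Then `n = m` or `n = m r p^e`, `r` = the order of the reduction of `μ`.
PROOF: `g(z) - g(w) = (z-w)(z+w+b)`; with `h = g^m`, for `z ≡ w ≡ y`: `h(z) - h(w) = (z-w) κ`, `κ ≡ μ`.  `m ∣ m'`, `k = m'/m` is the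
exact period of `y` under `h`.  If `k > 1`: `h(y) - y = h^k(h(y)) - h^k(y) = (h(y)-y) κ'`, `κ' ≡ μ^k`, so `μ^k ≡ 1`, `r ∣ k`.  Let
`H = h^r`, `k = r k'`, `k' = p^e q`, `p ∤ q`, `H' = H^(p^e)`; if `q > 1` then `Δ = H'(y) - y ≠ 0` and
`0 = ∑_{j<q} (H'^(j+1)(y) - H'^j(y)) = Δ (q + small)`, contradiction.  So `m' = m` or `m' = m r p^e`.  If `n = m' k₀` with the
multiplier `μ'` of `y` a primitive `k₀`-th root of unity: `μ' ≡ μ^(m'/m)`; a root of unity `≡ 1` has order a power of `p`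
(else `∏_{0<j<q} (1 - ζ^j) = q` is a unit); so `k₀ = r p^e` if `m' = m` and `k₀ = p^e` otherwise. -/
def S_DISC : Prop := ∀ (K : Type) [Field K] [CharZero K] (N : AbsoluteValue K ℝ) (p : ℕ) (_ : p.Prime)
  (_ : ∀ x y, N (x + y) ≤ max (N x) (N y)) (_ : N (p : K) < 1) (a b y : K), N a ≤ 1 → N b ≤ 1 → N y ≤ 1 →
  ∀ (g : K → K), (∀ x, g x = x ^ 2 + b * x + a) → ∀ (m' n : ℕ), 0 < m' → Function.minimalPeriod g y = m' →
  (n = m' ∨ ∃ k : ℕ, 1 < k ∧ n = m' * k ∧ IsPrimitiveRoot (∏ i ∈ Finset.range m', (2 * g^[i] y + b)) k) →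
  ∀ m : ℕ, 0 < m → N (g^[m] y - y) < 1 → (∀ j, 0 < j → j < m → 1 ≤ N (g^[j] y - y)) →
    n = m ∨ ∃ r e : ℕ, 0 < r ∧ n = m * r * p ^ e ∧
      N ((∏ i ∈ Finset.range m, (2 * g^[i] y + b)) ^ r - 1) < 1 ∧
      ∀ s, 0 < s → s < r → 1 ≤ N ((∏ i ∈ Finset.range m, (2 * g^[i] y + b)) ^ s - 1)

/-- JOB GOOD (S_DISC is a hypothesis).  PROOF: `|x| ≤ 1` as `x` is periodic (`|x| > 1` gives `|x²+c| = |x|²`, since `|c| ≤ 1`).
`|x - x^p| = |fr x - x^p| < 1`, so `∏_{w < p} (x - w) ≡ x^p - x` gives an integer `w` with `|x - w| < 1`.  The orbit of `w` mod `p` under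
`x² + red p c` is the reduction of the orbit of `x`; the exact period of `w` mod `p` is the `m` of S_DISC (`b = 0`, `a = c`) and
`r` the order of its multiplier. -/
def S_GOOD : Prop := ∀ (p : ℕ) [Fact p.Prime] (L : Loc p) (c : ℚ), ¬ p ∣ c.den → ∀ (n : ℕ), 0 < n →
  ∀ x : AlgebraicClosure ℚ_[p], FP (c : AlgebraicClosure ℚ_[p]) n x → L.fr x = x → Adm p (red p c) n

/-- JOB TWO1 (S_DISC is a hypothesis).  PROOF: `β² - β + c = 0`, `t = 2β`, `t² - 2t + 4c = 0`, `|4c| = 1/2`, so `|t| < 1`.  `y = x - β`,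
`g(y) = y² + t y`, conjugate to `x² + c`; `|y| ≤ 1` as it is periodic.  `fr β = β` or `1 - β`, so `fr y = y` or `y + t - 1`.  In the
first case `|y - y²| < 1`, so `g(y) ≡ y² ≡ y`; in the second `|y² - y + 1| < 1`, so `g(g(y)) ≡ y^4 ≡ y`.  So the `m` of S_DISC is `≤ 2`; its
`μ` has `|μ| < 1`, so there is no `r`, and `n = m ≤ 2`, contradiction. -/
def S_TWO1 : Prop := ∀ (L : Loc 2) (c : ℚ), padicValRat 2 c = -1 → ∀ (n : ℕ), 2 < n →
  ∀ x : AlgebraicClosure ℚ_[2], FP (c : AlgebraicClosure ℚ_[2]) n x → L.fr x ≠ x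

/-- JOB TWO2 (S_DISC is a hypothesis).  PROOF: as in TWO1, but `|4c| = 1`, so `|t| = 1` and `|t-1| < 1`.  `fr y = y` or `y + t - 1`, so
`|y - y²| < 1`.  If `|y-1| < 1` then `g(y) ≡ 1 + 1 ≡ 0` and all later iterates are `≡ 0`, but `y` is one of them: contradiction.
So `|y| < 1`, `m = 1` and `μ ≡ 1` in S_DISC, `r = 1`, `n = 1` or `n = 2^e`. -/
def S_TWO2 : Prop := ∀ (L : Loc 2) (c : ℚ), padicValRat 2 c = -2 → ∀ (n : ℕ), 2 < n → (¬ ∃ e : ℕ, n = 2 ^ e) →
  ∀ x : AlgebraicClosure ℚ_[2], FP (c : AlgebraicClosure ℚ_[2]) n x → L.fr x ≠ x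

/-- JOB PER2 (the easy end of Sharkovskii's theorem).  A continuous map of the line with a point of exact
period `k ≥ 2` has a point of exact period `2`. -/
def S_PER2 : Prop := ∀ (F : ℝ → ℝ), Continuous F → ∀ (x : ℝ), 2 ≤ Function.minimalPeriod F x →
  ∃ y : ℝ, Function.minimalPeriod F y = 2

/-- JOB R4.  No real point of exact period 4 for `c > -5/4`.  PROOF: let `x₀,…,x₃` be the orbit and suppose `x₀ ≠ x₂`,
`s = x₀ + x₂`, `t = x₁ + x₃`.  `x₁ - x₃ = (x₀-x₂) s`, `x₂ - x₀ = (x₁-x₃) t`, so `s t = -1`.  After a shift `s > 0`.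
`P = x₀x₂ = (s²+2c-t)/2`, `(x₀-x₂)² > 0` gives `s² < 2t - 4c`.  `x₁x₃ = P² + c t - c²` and `x₁x₃ = (t²+2c-s)/2` give
`4c s²(1-s²) = s⁶+4s³-1`.  If `s > 1` then `-4c = (s⁶+4s³-1)/(s²(s²-1)) > 5`, contradiction.  If `s < 1`: `-4c < 5` means
`s⁶-5s⁴+4s³+5s²-1 > 0`, i.e. `(s²+2s-1)(s⁴-2s³+2s+1) > 0`, `s²+2s-1 > 0`; `-4c > s²+2/s` means
`(1-2s-s²)(1+s²) > 0`, contradiction. -/
def S_R4 : Prop := ∀ (c : ℝ), -5 / 4 < c → ∀ y : ℝ, (qm c)^[4] y = y → (qm c)^[2] y = y

/-- JOB REAL (S_PER2, S_R4 are hypotheses).  PROOF: a point fixed by conjugation is real.  First no real point has exact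
period `m > 2`: for `F = q∘q` it has exact period `m / gcd(m,2) ≥ 2`, so by S_PER2 there is `y` with `q⁴ y = y`, `q² y ≠ y`,
contradicting S_R4.  In FP: `n = m` is impossible; else the multiplier is real and a primitive `k`-th root of unity, `k > 1`, so
`k = 2` and it is `-1`; `m ≤ 2`, `n > 3`, so `m = 2`, and the multiplier of a 2-cycle is `4(c+1)`, so `c = -5/4`. -/
def S_REAL : Prop := ∀ (c : ℚ), -5 / 4 < c → ∀ n : ℕ, 3 < n → ∀ z : ℂ, FP (c : ℂ) n z →
  (starRingEnd ℂ) z ≠ z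

/-- JOB ADM2: cycles of `x² + c` over `F_2`. -/
def S_ADM2 : Prop := ∀ (c : ZMod 2) (n : ℕ), Adm 2 c n → n ≤ 2

/-- JOB A35: cycles over `F_3` and `F_5`: `Adm 3 c n` implies `n ∈ {1,2,3^e,2·3^e}`, `Adm 5 c n` implies
`n ∈ {1,2,3,5^e,2·5^e,4·5^e,8·5^e}` (or `n = 0`). -/
def S_A35 : Prop := ∀ (c : ZMod 3) (c' : ZMod 5) (n : ℕ), 3 < n → Adm 3 c n → Adm 5 c' n → False

/-- JOB A5: at least three of the primes `3, 5, 7, 11, 13` are good.  PROOF: compute for each `p` the finite lists of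
`m` and of `m·r` (`decide`); then `n ≥ 7` cannot be in three of the sets `{m} ∪ {m r p^e}` (the intersections of three of
them contain only numbers `≤ 6`). -/
def S_A5 : Prop := ∀ (n : ℕ), 7 ≤ n → ∀ P : Finset ℕ, P ⊆ {3, 5, 7, 11, 13} → 3 ≤ P.card →
  (∀ p ∈ P, ∃ c : ZMod p, Adm p c n) → False

/-- JOB APQ.  PROOF: `m ≤ p` and `r ∣ p - 1`, so `n ≤ p(p-1)` or `n = m r p^e` with `e ≥ 1`; likewise for `q` with `n = m' r' q^e'`; if
both `e, e' ≥ 1` then `q ∣ m r` with `m ≤ p < q` and `r < q`, contradiction.  (`p = 2`: `n ≤ 2`.) -/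
def S_APQ : Prop := ∀ (p q : ℕ), p.Prime → q.Prime → p < q → ∀ (c : ZMod p) (c' : ZMod q) (n : ℕ),
  Adm p c n → Adm q c' n → n ≤ q * (q - 1)

/-- JOB SQ (S_ADM2 is a hypothesis): the denominator of an exceptional `c` is the square of an even number.
PROOF: `2 ∣ c.den` by S_ADM2.  Let `p` be a prime dividing `c.den`.  `p` odd: `|4c| = |c| > 1`, so `1 - 4c` is a square in `ℚ_p`
and `|1-4c| = |4c| = p^(v_p(den))` so `v_p(den)` is even.  `p = 2`: `v_2(den) = 1` is excluded, `v_2(den) = 2` is even, and for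
`v_2(den) ≥ 3`: `|4c| > 1`, same argument. -/
def S_SQ : Prop := ∀ (c : ℚ) (n : ℕ), 3 < n → Exc c n → ∃ k : ℕ, c.den = (2 * k) ^ 2

end Pool.Agent.H13DY
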